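import Pool.Agent.H927R2.VT.Final

/-!
There are a body `C` in the Euclidean plane and a tiling of the plane by congruent copies of `C` in which three
pairwise distinct tiles have the same neighbourhood.
-/

theorem Pool.Agent.Results.MP_73e00a_co.ThreeTiles.result :
    ∃ (C : Set (EuclideanSpace ℝ (Fin 2))) (𝒯 : Set (Set (EuclideanSpace ℝ (Fin 2)))),
      -- `C` is a closed topological disc
      (IsCompact C ∧ Nonempty (C ≃ₜ Metric.closedBall (0 : EuclideanSpace ℝ (Fin 2)) 1)) ∧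
      -- `𝒯` is a tiling of the plane by congruent copies of `C`
      (∀ T ∈ 𝒯, ∃ g : EuclideanSpace ℝ (Fin 2) ≃ᵢ EuclideanSpace ℝ (Fin 2), T = g '' C) ∧
      ⋃₀ 𝒯 = Set.univ ∧
      (∀ T ∈ 𝒯, ∀ T' ∈ 𝒯, T ≠ T' → Disjoint (interior T) (interior T')) ∧
      -- three distinct tiles with the same neighbourhood
      ∃ T₁ ∈ 𝒯, ∃ T₂ ∈ 𝒯, ∃ T₃ ∈ 𝒯, T₁ ≠ T₂ ∧ T₁ ≠ T₃ ∧ T₂ ≠ T₃ ∧
        ⋃₀ {T ∈ 𝒯 | (T ∩ T₁).Nonempty} = ⋃₀ {T ∈ 𝒯 | (T ∩ T₂).Nonempty} ∧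
        ⋃₀ {T ∈ 𝒯 | (T ∩ T₂).Nonempty} = ⋃₀ {T ∈ 𝒯 | (T ∩ T₃).Nonempty} := by
  obtain ⟨C, 𝒯, hB, ⟨h1, h2, h3⟩, T₁, m1, T₂, m2, T₃, m3, n12, n13, n23, e1, e2⟩ := VT927.hasThree
  exact ⟨C, 𝒯, hB, h1, h2, h3, T₁, m1, T₂, m2, T₃, m3, n12, n13, n23, e1, e2⟩
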